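import Pool.Agent.K4H51.SB.Bridge

/-!
# Serre's modularity conjecture over imaginary quadratic fields of class number one:
a counterexample to the statement with trivial character and finite flatness above `p`

The field is `ℚ(√-11)`, with `ω² = ω - 3`, the prime is `p = 2` and the level is `(2 + 5ω)`, of
norm 89.  The representation is the tensor product of the two-dimensional representation over
`𝔽₂` of the Galois group `S₃` of `y³ - 2ωy² - 4y + 2(ω-1)` with a character of order 3 cut out by
`y³ + (2ω-1)y² - y + (2ω-1)` and ramified only at 2.  Its determinant is a character of order 3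
that is ramified only at 2.  The trace of Frobenius at the prime `(ω)` of norm 3 is not in `𝔽₂`,
while every eigenvalue of every Hecke operator on `H¹(Y₀(𝔑), 𝔽̄₂)` is in `𝔽₂`.
-/

set_option autoImplicit false

open NumberField IsDedekindDomain

namespace Pool.Agent.Results.MP_94f623_nt.SerreModularityFails

open Pool.Agent.K4H51.SB

/-- The statement of the question is false for `p = 2` and some imaginary quadratic field `K` of
class number one. -/
theorem result : ∃ (K : Type) (_ : Field K) (_ : NumberField K),
    ¬ SerreFor K (AlgebraicClosure K) (AlgebraicClosure (ZMod 2)) 2 := by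
  refine ⟨K11, inferInstance, inferInstance, fun h => ?_⟩
  obtain ⟨v₀, h2⟩ := exists_v
  have hchar : CharZero (v₀.adicCompletion K11) := charZero_ext _
  let ι : AlgebraicClosure K11 →ₐ[K11] AlgebraicClosure (v₀.adicCompletion K11) := IsAlgClosed.lift
  obtain ⟨ζ, u, Uf, Ug, hζ, hu, hUg, hUf, vUf, vUg⟩ := local_data h2
  obtain ⟨R, hβ, hα⟩ := exists_good_lab (ι.comp LL.val) hu
  obtain ⟨φ, hφ⟩ := h finrank_K11 totallyComplex_K11 classNumber_K11 unramified_two lev R.rho
    coprime_two (rho_cont R) (irreducible R) (hasLevel R) (fun v hv => by
      have hv' : (2 : 𝓞 K11) ∈ v.asIdeal := by exact_mod_cast hv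
      obtain rfl := v_unique hv' h2
      exact isFlatAt (finite_flat h2 ι R hζ hUg hUf vUf vUg hβ hα))
  exact not_modular R φ hφ

end Pool.Agent.Results.MP_94f623_nt.SerreModularityFails
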